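import Mathlib
import Pool.Agent.Helper17.SympBase
import Pool.Agent.CEF.Energy
import Pool.Agent.BPR.Defs
import Pool.Agent.BPR.Main

/-!
# MP_ec5dc5_gt: bad pairs

`G = Symp_ct(ℝ^{2n})`, `n ≥ 3`.  For `ε > 0` the number of `ε`-bad pairs of `φ ∈ G` is the measure of
the set of all pairs `(x, y)` with `‖Dφ(x) - Dφ(y)‖ ≥ ε` with respect to `dx dy / ‖x - y‖^{4n}`.
This measure is invariant under translations and under rescaling, and the number is finite for all
`φ` and `ε`.  The numbers of bad pairs alone control the path components of `G`: a small number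
means that `φ` is isotopic to the identity, and only finitely many components contain maps with
given bounds for all these numbers.  Consequently every critical energy
`∬ Ψ(‖Dφ(x) - Dφ(y)‖) / ‖x - y‖^{4n}`, where `Ψ` is nondecreasing and positive on `(0, ∞)`, also a
bounded one and one which vanishes to any order at `0`, gives a proper length on `π₀(G)`.
-/

open scoped ENNReal

namespace Pool.Agent.Results.MP_ec5dc5_gt.BadPairs

open Pool.Agent.Helper17 Pool.Agent.CEF Pool.Agent.BPR

/-- Let `n ≥ 3` and `G = Symp_ct(ℝ^{2n})`.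

(1) There are `ε₀ > 0` and `v₀ > 0` such that each `φ ∈ G` with at most `v₀` `ε₀`-bad pairs is in the
path component of the identity.

(2) For every function `V`, finite on `(0, ∞)`, only finitely many path components of `G` contain a
`φ` with at most `V ε` `ε`-bad pairs for all `ε > 0`.

(3) For every critical energy `E` (`E = pairEnergy Ψ` for a weight `Ψ`, or `E = hessEnergy`) the
infimum of `E` over the path components is a proper length on `π₀(G)`.

(4) `π₀(G)` is countable. -/
theorem result (n : ℕ) (hn : 3 ≤ n) :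
    (∃ ε₀ : ℝ, 0 < ε₀ ∧ ∃ v₀ : ℝ, 0 < v₀ ∧ ∀ φ : SympCt n, badPairs ε₀ φ ≤ ENNReal.ofReal v₀ →
      ZerothHomotopy.mk φ = ZerothHomotopy.mk 1) ∧
    (∀ V : ℝ → ℝ≥0∞, (∀ ε, 0 < ε → V ε ≠ ⊤) →
      {c : ZerothHomotopy (SympCt n) | ∃ φ : SympCt n, ZerothHomotopy.mk φ = c ∧
        ∀ ε, 0 < ε → badPairs ε φ ≤ V ε}.Finite) ∧
    (∀ E : SympCt n → ℝ≥0∞, IsCritEnergy E → IsProperLength (infOn E)) ∧
    Countable (ZerothHomotopy (SympCt n)) :=
  ⟨gap_bad hn, finite_bad hn, fun _ hE => properLength hn hE, countable_classes (by omega)⟩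

end Pool.Agent.Results.MP_ec5dc5_gt.BadPairs
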