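import Mathlib
import Pool.Agent.TOS.Main

open Pool.Agent.Helper17 Pool.Agent.Helper42 Pool.Agent.CRC Pool.Agent.TOS

namespace Pool.Agent.Results.MP_ec5dc5_gt.ToricSystems

/-- Let `S` be a nonempty set of indices of the complex coordinates `z_j` of `ℝ^{2n+2}`. The map
`φ ↦ (|z_j ∘ φ| ^ 2 / 2)_{j ∈ S}` from the group of compactly supported symplectomorphisms of
`ℝ^{2n+2}` to the space of Hamiltonian actions of the torus `T^S` on `ℝ^{2n+2}` which are standard at
infinity is surjective, its fibres are described by the compactly supported functions invariant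
under the action, and it is an isomorphism on all homotopy groups. -/
theorem result (n : ℕ) (S : Finset (Fin (n + 1))) (hS : S.Nonempty) :
    -- every torus action is standard
    (∀ f : TorHam n S, ∃ φ : SympCt (n + 1), ∀ (j : S) p, f.1 j p = momentj j.1 φ p) ∧
    -- symplectomorphisms with the same torus action differ by an invariant phase
    (∀ j ∈ S, ∀ φ ψ : SympCt (n + 1), (∀ i ∈ S, ∀ p, momentj i ψ p = momentj i φ p) ↔
      ∃ η : Phase (n + 1) → ℝ, IsInvariantT S φ η ∧ IsTwistj j φ η ψ) ∧
    -- every invariant phase occurs exactly once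
    (∀ j ∈ S, ∀ (φ : SympCt (n + 1)) (η : Phase (n + 1) → ℝ), IsInvariantT S φ η →
      ∃! ψ : SympCt (n + 1), IsTwistj j φ η ψ) ∧
    -- the isomorphism on homotopy groups
    ∃ c : ∀ k : ℕ, PiG k (n + 1) → PiT k n S,
      (∀ k (φ : LoopG k (n + 1)) (f : LoopT k n S), IsMomentT φ f → c k φ.cls = f.cls) ∧
      (∀ k (φ : LoopG k (n + 1)), ∃ f : LoopT k n S, IsMomentT φ f) ∧
      (∀ k, Function.Bijective (c k)) ∧ ∀ k, IsHom (c (k + 1)) :=
  main n S hS

end Pool.Agent.Results.MP_ec5dc5_gt.ToricSystems
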