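import Mathlib
import Pool.Agent.BHS.Stm3
import Pool.Agent.BHS.Final
import Pool.Agent.BHS.Surj
import Pool.Agent.TOR.Final

open TopologicalSpace
open scoped unitInterval
open Pool.Agent.BHS.Stm

namespace Pool.Agent.Results.MP_ec5dc5_gt.TorusSplitting

/-- The Bass–Heller–Swan decomposition for symplectomorphism groups of tori.
`G = SympCt n = Symp_ct(ℝ^{2n})`; `S_b = TorusSymp b`: the lifts to `ℝ^{2n}` of the
symplectomorphisms of the torus `ℝ^{2n} / Λ` acting trivially on `H_1`, `Λ` the lattice with basis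
`b` (so `N = 2n`); `ClG T0 m n` and `ClS T0 m b` are the groups of homotopy classes of maps
`T × I^m → G` and `T × I^m → S_b` relative to `T0 × I^m ∪ T × ∂I^m` (`π_m(G)` and `π_m(S_b)` if `T`
is a point and `T0` is empty). The maps `κ_J`, `J` a subset of the basis, are given by iterated
commutators of periodic extensions with translations in the directions of `J`, the maps `ρ_J` go
back; the commutator classes span a direct summand, isomorphic to the product of the groups
`ClG T0 (m - |J|) n`, and for `m ≥ 2n` the remaining classes are those which die in finite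
covers. -/
theorem result (n N : ℕ) :
    (∀ (T : Type) [TopologicalSpace T] [CompactSpace T] (T0 : Set T) (m : ℕ),
      ∃ (κ : Kap T0 m n N) (ρ : Rho T0 m n N),
        AreComm κ ∧ Diag κ ρ ∧ Upper κ ρ ∧ Covers ρ ∧ (0 < m → HomK κ ∧ HomR ρ ∧ Onto ρ) ∧
        (N ≤ m → Dies ρ ∧ Generate κ)) ∧
    ∀ b : Bas n N,
      (∀ k, PiZero n k ↔ GenProper b (N + k)) ∧
      ((∀ k, PiZero n k) ↔ ∀ m, N ≤ m → AllDie b m) ∧
      ∃ W : C(TorusSymp b, SympCt n), Unwraps b W := by
  refine ⟨fun T _ _ T0 m => ?_, fun b => ⟨?_, ?_, ?_⟩⟩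
  · obtain ⟨κ, ρ, hc, hh, h1, h2, h3, h4⟩ := (Pool.Agent.BHS.main n N).1 T T0 m
    refine ⟨κ, ρ, ?_, ?_, ?_, ?_, fun hm => ⟨?_, ?_, ?_⟩, fun hm => ⟨?_, ?_⟩⟩
    · intro b J hJ α x
      exact hc b J hJ α x
    · exact h1
    · exact h2
    · intro b L J hJ x
      obtain ⟨f⟩ := x
      exact h3 b L J hJ (Quotient.mk _ f)
    · intro b J hJ
      exact (hh hm b J hJ).1
    · intro b J hJ
      exact (hh hm b J hJ).2
    · exact fun b α => Pool.Agent.BHS.Claim.surj_of (κ b) (ρ b)
        (fun J hJ => (hh hm b J hJ).2) (h1 b) (h2 b) α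
    · exact fun b x => (h4 hm b x).1
    · exact fun b x => (h4 hm b x).2
  · exact ((Pool.Agent.BHS.main n N).2 b).1
  · exact ((Pool.Agent.BHS.main n N).2 b).2
  · obtain ⟨W, hW⟩ := Pool.Agent.TOR.main b
    refine ⟨W, fun K hK => ?_⟩
    obtain ⟨P, h1, h2, -⟩ := hW K hK
    exact ⟨P, h1, _, fun _ => rfl, h2⟩

end Pool.Agent.Results.MP_ec5dc5_gt.TorusSplitting
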