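import Mathlib
import Pool.Agent.TWF.Asm

/-!
`MP_ec5dc5_gt`: two functions are enough.  For a linear map `L = (L_1, ..., L_k)` of `ℝ^{2n}`, two of
whose components are linearly independent, the map `φ ↦ L ∘ φ` is a homeomorphism from the group of
compactly supported symplectomorphisms of `ℝ^{2n}` onto the space of all systems of functions
`(F_1, ..., F_k)` which are equal to `(L_1, ..., L_k)` outside a compact set and have the same
(constant) Poisson brackets.  For example, the group is homeomorphic to the space of the
Poisson-commuting pairs of functions equal to `(x_1, x_2)` outside a compact set.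
-/

set_option autoImplicit false

open Pool.Agent.Helper17 Pool.Agent.TWF

namespace Pool.Agent.Results.MP_ec5dc5_gt.TwoFunctions

/-- For `k ≥ 1` and a linear map `L : ℝ^{2n} → ℝ^k` these are equivalent: two of the components of
`L` are linearly independent; the map `φ ↦ L ∘ φ` is a homeomorphism from the group of compactly
supported symplectomorphisms of `ℝ^{2n}` onto the space of the smooth maps `F : ℝ^{2n} → ℝ^k` with
`F = L` outside a compact set and `{F_i, F_j} = {L_i, L_j}` for all `i`, `j`; this map is onto. -/
theorem result (n k : ℕ) (hk : 0 < k) (L : Phase n →L[ℝ] (Fin k → ℝ)) :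
    (Indep L ↔ ∃ e : SympCt n ≃ₜ TupleSp L, ∀ φ : SympCt n, IsPull (e φ) φ) ∧
    (Indep L ↔ ∀ F : TupleSp L, ∃ φ : SympCt n, IsPull F φ) :=
  two_functions hk L

end Pool.Agent.Results.MP_ec5dc5_gt.TwoFunctions
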